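import Pool.Agent.W602.RG.Stm
import Pool.Agent.W603.LV.Spec
import Pool.Agent.W603.LV.Root

/-!
# Project RG, SEQ: an infinite set of functions of bounded degree takes infinitely many values at
some point
-/

set_option autoImplicit false

open FF MvPolynomial Pool.Agent.W603.LV

namespace Pool.Agent.W764.RG.Seq

section

variable {k L : Type} [Field k] [Field L] [Algebra k L] [IsAlgClosed k] [CharZero k] [IsFF k L]

omit [IsAlgClosed k] in
/-- the number of poles is at most the height -/
theorem card_poles (f : L) (Q : Finset (Place k L)) (h : ∀ P ∈ Q, P.ord f < 0) :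
    (Q.card : ℤ) ≤ hgt k f := by
  classical
  obtain ⟨T, hT⟩ := exists_supp (k := k) (Finset.univ : Finset (Fin 1)) ![f]
  have h1 : ∀ P : Place k L, P.ord f ≠ 0 → P ∈ T := fun P => hT 0 (Finset.mem_univ _) P
  rw [hgt_finset _ T h1]
  have h2 : Q ⊆ T := fun P hP => h1 P (h P hP).ne
  calc (Q.card : ℤ) = ∑ P ∈ Q, 1 := by simp
    _ ≤ ∑ P ∈ Q, max (-P.ord f) 0 := by
      refine Finset.sum_le_sum fun P hP => ?_
      have := h P hP
      omega
    _ ≤ ∑ P ∈ T, max (-P.ord f) 0 :=
      Finset.sum_le_sum_of_subset_of_nonneg h2 fun P _ _ => le_max_right _ _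

omit [IsAlgClosed k] in
theorem hgt_sub_le (u v : L) : hgt k (u - v) ≤ hgt k u + hgt k v := by
  have h1 := hgt_mvpoly (k := k) (K := L) (ρ := Fin 2) ![u, v] (X 0 - X 1)
  have h2 : aeval (R := k) ![u, v] (X 0 - X 1 : MvPolynomial (Fin 2) k) = u - v := by
    simp
  rw [h2, Fin.sum_univ_two] at h1
  have h3 : (X 0 - X 1 : MvPolynomial (Fin 2) k).totalDegree ≤ 1 := by
    refine (totalDegree_sub _ _).trans ?_
    rw [totalDegree_X, totalDegree_X, max_self]
  have h4 : 0 ≤ hgt k u := hgt_nonneg u
  have h5 : 0 ≤ hgt k v := hgt_nonneg v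
  have h6 : (((X 0 - X 1 : MvPolynomial (Fin 2) k).totalDegree : ℕ) : ℤ) ≤ 1 := by exact_mod_cast h3
  simp only [Matrix.cons_val_zero, Matrix.cons_val_one] at h1
  calc hgt k (u - v) ≤ _ := h1
    _ ≤ 1 * (hgt k u + hgt k v) := mul_le_mul_of_nonneg_right h6 (by linarith)
    _ = hgt k u + hgt k v := one_mul _

omit [IsAlgClosed k] [CharZero k] [IsFF k L] in
open Classical in
/-- the value at a place -/
noncomputable def ty (u : L) (P : Place k L) : Option k :=
  if h : ∃ c : k, Ge P 1 (u - algebraMap k L c) then some h.choose else none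

omit [IsAlgClosed k] [CharZero k] [IsFF k L] in
theorem ty_some {u : L} {P : Place k L} {c : k} (h : ty u P = some c) :
    Ge P 1 (u - algebraMap k L c) := by
  unfold ty at h
  split_ifs at h with h1
  rw [← Option.some.inj h]
  exact h1.choose_spec

theorem ty_none {u : L} {P : Place k L} (h : ty u P = none) : P.ord u < 0 := by
  unfold ty at h
  split_ifs at h with h1
  by_contra hc
  push Not at hc
  exact h1 (exists_const P (Or.inr hc))

end

theorem main : Pool.Agent.W602.RG.S_SEQ := by
  intro k L _ _ _ _ _ _ B M hM hB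
  classical
  by_contra hcon
  -- finitely many values at each place
  have hfin : ∀ P : Place k L, {c : k | ∃ u ∈ M, Ge P 1 (u - algebraMap k L c)}.Finite := by
    intro P
    by_contra hinf
    apply hcon
    have hinf' : {c : k | ∃ u ∈ M, Ge P 1 (u - algebraMap k L c)}.Infinite := hinf
    set θ := hinf'.natEmbedding with hθ
    choose u hu hu2 using fun m : ℕ => (θ m).2
    refine ⟨P, u, fun m => (θ m).1, hu, ?_, ?_⟩
    · intro m m' h
      exact θ.injective (Subtype.ext h)
    · intro m
      rcases hu2 m with h | h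
      · exact Or.inl (sub_eq_zero.1 h)
      · exact Or.inr (show 0 < P.ord (u m - algebraMap k L (θ m).1) by omega)
  -- many places
  obtain ⟨b, hb⟩ : ∃ b : ℕ, ∀ u ∈ M, hgt k u ≤ b := ⟨B.toNat, fun u hu => (hB u hu).trans
    (Int.self_le_toNat B)⟩
  have hinfP : Infinite (Place k L) := by
    by_contra h
    rw [not_infinite_iff_finite] at h
    have := Fintype.ofFinite (Place k L)
    obtain ⟨P, hP⟩ := exists_place_not_mem (k := k) (K := L) Finset.univ
    exact hP (Finset.mem_univ P)
  obtain ⟨Q, hQ⟩ := Infinite.exists_subset_card_eq (Place k L) (3 * b + 1)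
  -- two functions with the same values
  have himg : ((fun (u : L) (P : {P // P ∈ Q}) => ty (k := k) u P.1) '' M).Finite := by
    refine (Set.Finite.pi (t := fun P : {P // P ∈ Q} =>
      insert none (some '' {c : k | ∃ u ∈ M, Ge P.1 1 (u - algebraMap k L c)}))
      (fun P => ((hfin P.1).image some).insert none)).subset ?_
    rintro _ ⟨u, hu, rfl⟩
    intro P _
    cases h : ty (k := k) u P.1 with
    | none => exact Or.inl h
    | some c => exact Or.inr ⟨c, ⟨u, hu, ty_some h⟩, h.symm⟩
  obtain ⟨u, hu, u', hu', hne, heq⟩ := hM.exists_ne_map_eq_of_mapsTo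
    (Set.mapsTo_image _ M) himg
  have hty : ∀ P ∈ Q, ty (k := k) u P = ty u' P := fun P hP => congrFun heq ⟨P, hP⟩
  have hg0 : u - u' ≠ 0 := sub_ne_zero.2 hne
  -- places which are not poles are zeros of the difference
  have hz : ∀ P ∈ Q, ¬ P.ord u < 0 → P.ord (u - u')⁻¹ < 0 := by
    intro P hP hpole
    cases h : ty (k := k) u P with
    | none => exact absurd (ty_none h) hpole
    | some c =>
      have h1 := ty_some h
      have h2 := ty_some ((hty P hP).symm.trans h)
      have h3 := h1.sub h2
      rw [sub_sub_sub_cancel_right] at h3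
      have h4 := h3.resolve_left hg0
      rw [P.ord_inv]
      omega
  have c1 := card_poles (k := k) u (Q.filter fun P => P.ord u < 0)
    (fun P hP => (Finset.mem_filter.1 hP).2)
  have c2 := card_poles (k := k) (u - u')⁻¹ (Q.filter fun P => ¬ P.ord u < 0)
    (fun P hP => hz P (Finset.mem_filter.1 hP).1 (Finset.mem_filter.1 hP).2)
  rw [hgt_inv] at c2
  have c3 := hgt_sub_le (k := k) u u'
  have c4 := Finset.card_filter_add_card_filter_not (s := Q) (fun P => P.ord u < 0)
  rw [hQ] at c4
  have c5 := hb u hu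
  have c6 := hb u' hu'
  have c7 : (((Q.filter fun P => P.ord u < 0).card : ℤ)
      + ((Q.filter fun P => ¬ P.ord u < 0).card : ℤ)) = 3 * b + 1 := by exact_mod_cast c4
  linarith

end Pool.Agent.W764.RG.Seq
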